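import Mathlib

set_option autoImplicit false

/-!
# Invariable generation from the Baumslag–Solitar relation
-/

namespace Pool.Agent.TH86.BS

variable {G : Type} [Group G]

/-- every element commensurates `a`, with indices of the form `mⁱ nʲ` -/
theorem commens {a t : G} {m n : ℕ} (hrel : t * a ^ m * t⁻¹ = a ^ n)
    (hgen : Subgroup.closure {a, t} = ⊤) (g : G) :
    ∃ i j k l : ℕ, g * a ^ (m ^ i * n ^ j) * g⁻¹ = a ^ (m ^ k * n ^ l) := by
  have hg : g ∈ Subgroup.closure {a, t} := by rw [hgen]; exact Subgroup.mem_top g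
  induction hg using Subgroup.closure_induction with
  | mem x hx =>
    rcases hx with rfl | hx
    · exact ⟨0, 0, 0, 0, by simp⟩
    · have hx' : x = t := hx
      subst hx'
      exact ⟨1, 0, 0, 1, by simpa using hrel⟩
  | one => exact ⟨0, 0, 0, 0, by simp⟩
  | mul g h _ _ hg hh =>
    obtain ⟨i, j, k, l, e1⟩ := hg
    obtain ⟨i', j', k', l', e2⟩ := hh
    refine ⟨i + i', j + j', k + k', l + l', ?_⟩
    have h1 : a ^ (m ^ (i + i') * n ^ (j + j')) = (a ^ (m ^ i' * n ^ j')) ^ (m ^ i * n ^ j) := by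
      rw [← pow_mul]; congr 1; ring
    have h2 : a ^ (m ^ (k + k') * n ^ (l + l')) = (a ^ (m ^ k * n ^ l)) ^ (m ^ k' * n ^ l') := by
      rw [← pow_mul]; congr 1; ring
    rw [h1, h2]
    generalize m ^ i * n ^ j = N at *
    generalize m ^ k * n ^ l = N' at *
    generalize m ^ i' * n ^ j' = M at *
    generalize m ^ k' * n ^ l' = M' at *
    calc g * h * (a ^ M) ^ N * (g * h)⁻¹ = g * (h * (a ^ M) ^ N * h⁻¹) * g⁻¹ := by
          simp [mul_assoc]
      _ = g * (h * a ^ M * h⁻¹) ^ N * g⁻¹ := by rw [conj_pow]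
      _ = g * (a ^ M') ^ N * g⁻¹ := by rw [e2]
      _ = g * (a ^ N) ^ M' * g⁻¹ := by rw [← pow_mul, ← pow_mul, mul_comm M' N]
      _ = (g * a ^ N * g⁻¹) ^ M' := by rw [conj_pow]
      _ = (a ^ N') ^ M' := by rw [e1]
  | inv g _ hg =>
    obtain ⟨i, j, k, l, e1⟩ := hg
    refine ⟨k, l, i, j, ?_⟩
    rw [← e1]
    simp [mul_assoc]

/-- A subgroup containing `t` and a conjugate of `a` is everything. -/
theorem eq_top_of_mem {a t : G} {m n : ℕ} (hco : Nat.Coprime m n)
    (hrel : t * a ^ m * t⁻¹ = a ^ n) (hgen : Subgroup.closure {a, t} = ⊤) (K : Subgroup G)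
    (ht : t ∈ K) (g : G) (hg : g * a * g⁻¹ ∈ K) : K = ⊤ := by
  obtain ⟨i, j, k, l, e⟩ := commens hrel hgen g
  have h0 : a ^ (m ^ k * n ^ l) ∈ K := by
    rw [← e, ← conj_pow]
    exact K.pow_mem hg _
  have up : ∀ (x s : ℕ), a ^ (m ^ x * s) ∈ K → a ^ (n ^ x * s) ∈ K := by
    intro x
    induction x with
    | zero => intro s hs; simpa using hs
    | succ x ih =>
      intro s hs
      have h1 : a ^ (m ^ x * (n * s)) = t * a ^ (m ^ (x + 1) * s) * t⁻¹ := by
        have h2 : a ^ (m ^ (x + 1) * s) = (a ^ m) ^ (m ^ x * s) := by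
          rw [← pow_mul]; congr 1; ring
        rw [h2, ← conj_pow, hrel, ← pow_mul]; congr 1; ring
      have h3 := ih (n * s) (by
        rw [h1]; exact K.mul_mem (K.mul_mem ht hs) (K.inv_mem ht))
      have h4 : n ^ (x + 1) * s = n ^ x * (n * s) := by ring
      rw [h4]; exact h3
  have down : ∀ (x s : ℕ), a ^ (n ^ x * s) ∈ K → a ^ (m ^ x * s) ∈ K := by
    intro x
    induction x with
    | zero => intro s hs; simpa using hs
    | succ x ih =>
      intro s hs
      have h1 : a ^ (n ^ x * (m * s)) = t⁻¹ * a ^ (n ^ (x + 1) * s) * t := by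
        have h2 : a ^ (n ^ (x + 1) * s) = (a ^ n) ^ (n ^ x * s) := by
          rw [← pow_mul]; congr 1; ring
        have h5 : a ^ (n ^ x * (m * s)) = (a ^ m) ^ (n ^ x * s) := by
          rw [← pow_mul]; congr 1; ring
        rw [h2, ← hrel, conj_pow, h5]; simp [mul_assoc]
      have h3 := ih (m * s) (by
        rw [h1]; exact K.mul_mem (K.mul_mem (K.inv_mem ht) hs) ht)
      have h4 : m ^ (x + 1) * s = m ^ x * (m * s) := by ring
      rw [h4]; exact h3
  have hm : a ^ (m ^ (k + l)) ∈ K := by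
    have := down l (m ^ k) (by rw [mul_comm]; exact h0)
    rwa [← pow_add, add_comm] at this
  have hn : a ^ (n ^ (k + l)) ∈ K := by
    have := up k (n ^ l) h0
    rwa [← pow_add] at this
  have hc : Nat.Coprime (m ^ (k + l)) (n ^ (k + l)) := Nat.Coprime.pow _ _ hco
  have hb := Nat.gcd_eq_gcd_ab (m ^ (k + l)) (n ^ (k + l))
  rw [hc.gcd_eq_one] at hb
  have ha : a ∈ K := by
    have h1 : a = (a ^ (m ^ (k + l))) ^ (Nat.gcdA (m ^ (k + l)) (n ^ (k + l))) *
        (a ^ (n ^ (k + l))) ^ (Nat.gcdB (m ^ (k + l)) (n ^ (k + l))) := by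
      rw [← zpow_natCast, ← zpow_natCast, ← zpow_mul, ← zpow_mul, ← zpow_add, ← hb]
      simp
    rw [h1]
    exact K.mul_mem (K.zpow_mem hm _) (K.zpow_mem hn _)
  rw [eq_top_iff, ← hgen, Subgroup.closure_le]
  rintro x (rfl | hx)
  · exact ha
  · have hx' : x = t := hx
    rw [hx']; exact ht

/-- Invariable generation by `a` and `t`. -/
theorem inv_gen {a t : G} {m n : ℕ} (hco : Nat.Coprime m n)
    (hrel : t * a ^ m * t⁻¹ = a ^ n) (hgen : Subgroup.closure {a, t} = ⊤) (H : Subgroup G)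
    (x y : G) (hx : x⁻¹ * a * x ∈ H) (hy : y⁻¹ * t * y ∈ H) : H = ⊤ := by
  have hK : H.comap (MulAut.conj y⁻¹).toMonoidHom = ⊤ := by
    apply eq_top_of_mem hco hrel hgen _ _ (y * x⁻¹)
    · show (MulAut.conj y⁻¹) (y * x⁻¹ * a * (y * x⁻¹)⁻¹) ∈ H
      rw [MulAut.conj_apply]
      simpa [mul_assoc] using hx
    · show (MulAut.conj y⁻¹) t ∈ H
      rw [MulAut.conj_apply]
      simpa using hy
  rw [eq_top_iff]
  intro z _
  have hz : y * z * y⁻¹ ∈ H.comap (MulAut.conj y⁻¹).toMonoidHom := by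
    rw [hK]; exact Subgroup.mem_top _
  have hz' : (MulAut.conj y⁻¹) (y * z * y⁻¹) ∈ H := hz
  rw [MulAut.conj_apply] at hz'
  simpa [mul_assoc] using hz'

end Pool.Agent.TH86.BS
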