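import Mathlib

set_option autoImplicit false

/-!
# The length function of an HNN extension is 0-hyperbolic
-/

namespace Pool.Agent.TH86.BS

open HNNExtension HNNExtension.NormalWord

section lists

variable {α : Type} [DecidableEq α]

/-- length of the longest common prefix -/
def cp : List α → List α → ℕ
  | [], _ => 0
  | _ :: _, [] => 0
  | a :: l, b :: l' => if a = b then cp l l' + 1 else 0

theorem cp_nil_left (l : List α) : cp [] l = 0 := by cases l <;> rfl
theorem cp_nil_right (l : List α) : cp l [] = 0 := by cases l <;> rfl

theorem cp_comm (l l' : List α) : cp l l' = cp l' l := by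
  induction l generalizing l' with
  | nil => rw [cp_nil_left, cp_nil_right]
  | cons a l ih =>
    cases l' with
    | nil => rfl
    | cons b l' =>
      by_cases h : a = b
      · subst h
        simp [cp, ih]
      · have h' : ¬ b = a := fun e => h e.symm
        simp [cp, h, h']

theorem cp_ultra (x y z : List α) : min (cp x y) (cp y z) ≤ cp x z := by
  induction x generalizing y z with
  | nil => simp [cp_nil_left]
  | cons a x ih =>
    cases y with
    | nil => simp [cp_nil_right]
    | cons b y =>
      cases z with
      | nil => simp [cp_nil_right]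
      | cons c z =>
        by_cases h1 : a = b
        · by_cases h2 : b = c
          · subst h1; subst h2
            simp only [cp, if_true]
            have := ih y z
            omega
          · simp [cp, h2]
        · simp [cp, h1]

theorem cp_le_left (l l' : List α) : cp l l' ≤ l.length := by
  induction l generalizing l' with
  | nil => simp [cp_nil_left]
  | cons a l ih =>
    cases l' with
    | nil => simp [cp_nil_right]
    | cons b l' =>
      by_cases h : a = b
      · simp only [cp, h, if_true, List.length_cons]
        have := ih l'
        omega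
      · simp [cp, h]

end lists

variable {G : Type} [Group G] {A B : Subgroup G} (φ : A ≃* B)

/-- product of a word -/
def P (g : G) (l : List (ℤˣ × G)) : HNNExtension G A B φ :=
  of g * (l.map (fun x => t ^ (x.1 : ℤ) * of x.2)).prod

variable (A B) in
/-- the relation in the definition of a reduced word -/
def C (a b : ℤˣ × G) : Prop := a.2 ∈ toSubgroup A B a.1 → a.1 = b.1

theorem P_append (g : G) (l l' : List (ℤˣ × G)) :
    P φ g (l ++ l') = P φ g l * P φ 1 l' := by
  simp [P, mul_assoc]

theorem P_cons (g : G) (a : ℤˣ × G) (l : List (ℤˣ × G)) :
    P φ g (a :: l) = of g * t ^ (a.1 : ℤ) * P φ a.2 l := by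
  simp [P, mul_assoc]

theorem P_mul_left (g g' : G) (l : List (ℤˣ × G)) : P φ (g * g') l = of g * P φ g' l := by
  simp [P, mul_assoc]

/-- head of the inverse word (of a reversed list) -/
def ihead (g : G) : List (ℤˣ × G) → G
  | [] => g⁻¹
  | b :: _ => b.2⁻¹

/-- list of the inverse word (of a reversed list) -/
def ilist (g : G) : List (ℤˣ × G) → List (ℤˣ × G)
  | [] => []
  | b :: s => (-b.1, ihead g s) :: ilist g s

theorem ilist_length (g : G) (r : List (ℤˣ × G)) : (ilist g r).length = r.length := by
  induction r with
  | nil => rfl
  | cons b s ih => simp [ilist, ih]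

theorem P_inv (g : G) (r : List (ℤˣ × G)) :
    (P φ g r.reverse)⁻¹ = P φ (ihead g r) (ilist g r) := by
  induction r with
  | nil => simp [P, ihead, ilist]
  | cons b s ih =>
    rw [List.reverse_cons, P_append, mul_inv_rev, ih]
    show _ = P φ (b.2⁻¹) ((-b.1, ihead g s) :: ilist g s)
    rw [P_cons]
    simp [P, mul_assoc]

theorem ilist_chain (g : G) (r : List (ℤˣ × G)) (h : r.reverse.IsChain (C A B)) :
    (ilist g r).IsChain (C A B) := by
  induction r with
  | nil => simp [ilist]
  | cons b s ih =>
    rw [List.reverse_cons, List.isChain_append] at h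
    obtain ⟨h1, _, h3⟩ := h
    have ih' := ih h1
    show ((-b.1, ihead g s) :: ilist g s).IsChain (C A B)
    rw [List.isChain_cons]
    refine ⟨?_, ih'⟩
    intro y hy
    cases s with
    | nil => simp [ilist] at hy
    | cons c s =>
      simp only [ilist, List.head?_cons, Option.mem_def, Option.some.injEq] at hy
      subst hy
      have h4 : C A B c b := by
        apply h3
        · simp
        · simp
      intro h5
      show -b.1 = -c.1
      have h5' : c.2 ∈ toSubgroup A B (-b.1) := by
        have : c.2⁻¹ ∈ toSubgroup A B (-b.1) := h5
        simpa using this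
      by_contra hne
      have hne' : c.1 ≠ b.1 := fun e => hne (by rw [e])
      have e : c.1 = -b.1 := by
        rcases Int.units_eq_one_or c.1 with e1 | e1 <;> rcases Int.units_eq_one_or b.1 with e2 | e2 <;>
          simp_all
      rw [← e] at h5'
      exact hne' (h4 h5')

/-- A word that can be turned into a reduced word. -/
theorem len_unique {g g' : G} {l l' : List (ℤˣ × G)} (h : l.IsChain (C A B))
    (h' : l'.IsChain (C A B)) (e : P φ g l = P φ g' l') : l.length = l'.length := by
  have := (ReducedWord.map_fst_eq_and_of_prod_eq φ
    (w₁ := ⟨g, l, h⟩) (w₂ := ⟨g', l', h'⟩) e).1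
  have h2 := congrArg List.length this
  simpa using h2

variable (d : TransversalPair G A B)

/-- Quotient of two normal words. -/
theorem quot_word [DecidableEq (ℤˣ × G)] (g g' : G) (r r' : List (ℤˣ × G))
    (h : r.reverse.IsChain (C A B))
    (h' : r'.reverse.IsChain (C A B))
    (hs : ∀ (u : ℤˣ) (x : G), (u, x) ∈ r → x ∈ d.set u)
    (hs' : ∀ (u : ℤˣ) (x : G), (u, x) ∈ r' → x ∈ d.set u) :
    ∃ (k : G) (l : List (ℤˣ × G)), l.IsChain (C A B) ∧
      P φ g r.reverse * (P φ g' r'.reverse)⁻¹ = P φ k l ∧
      l.length + 2 * cp r r' = r.length + r'.length := by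
  induction r generalizing r' with
  | nil =>
    refine ⟨g * ihead g' r', ilist g' r', ilist_chain g' r' h', ?_, ?_⟩
    · rw [P_inv, P_mul_left]
      simp [P]
    · rw [cp_nil_left, ilist_length]; simp
  | cons a s ih =>
    have key : ∀ x : G, (s.reverse ++ [(a.1, x)]).IsChain (C A B) := by
      intro x
      rw [List.reverse_cons, List.isChain_append] at h
      rw [List.isChain_append]
      refine ⟨h.1, by simp, ?_⟩
      intro y hy z hz
      simp only [List.head?_cons, Option.mem_def, Option.some.injEq] at hz
      subst hz
      exact h.2.2 y hy a (by simp)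
    cases r' with
    | nil =>
      refine ⟨g, s.reverse ++ [(a.1, a.2 * g'⁻¹)], key _, ?_, ?_⟩
      · rw [List.reverse_cons, P_append, P_append]
        simp [P, mul_assoc]
      · rw [cp_nil_right]; simp
    | cons b s' =>
      by_cases hab : a = b
      · subst hab
        have h1 : s.reverse.IsChain (C A B) := by
          rw [List.reverse_cons, List.isChain_append] at h
          exact h.1
        have h1' : s'.reverse.IsChain (C A B) := by
          rw [List.reverse_cons, List.isChain_append] at h'
          exact h'.1
        obtain ⟨k, l, hl, e, hlen⟩ := ih s' h1 h1' (fun u x hx => hs u x (by simp [hx]))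
          (fun u x hx => hs' u x (by simp [hx]))
        refine ⟨k, l, hl, ?_, ?_⟩
        · rw [← e, List.reverse_cons, List.reverse_cons, P_append, P_append]
          group
        · simp only [cp, if_true, List.length_cons]
          omega
      · refine ⟨g, s.reverse ++ (a.1, a.2 * b.2⁻¹) :: ilist g' (b :: s'), ?_, ?_, ?_⟩
        · have h1 := key (a.2 * b.2⁻¹)
          rw [List.isChain_append] at h1 ⊢
          refine ⟨h1.1, ?_, ?_⟩
          · rw [List.isChain_cons]
            refine ⟨?_, ilist_chain _ _ h'⟩
            intro y hy
            simp only [ilist, List.head?_cons, Option.mem_def, Option.some.injEq] at hy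
            subst hy
            intro h2
            show a.1 = -b.1
            by_contra hne
            have e : a.1 = b.1 := by
              rcases Int.units_eq_one_or a.1 with e1 | e1 <;>
                rcases Int.units_eq_one_or b.1 with e2 | e2 <;> simp_all
            apply hab
            refine Prod.ext e ?_
            have m1 : a.2 ∈ d.set a.1 := hs a.1 a.2 (by simp)
            have m2 : b.2 ∈ d.set a.1 := by rw [e]; exact hs' b.1 b.2 (by simp)
            have h2' : a.2 * b.2⁻¹ ∈ toSubgroup A B a.1 := h2
            have hc := (d.compl a.1).1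
            have := @hc (⟨⟨a.2 * b.2⁻¹, h2'⟩, ⟨b.2, m2⟩⟩) (⟨⟨1, one_mem _⟩, ⟨a.2, m1⟩⟩) (by simp)
            have h3 := congrArg (fun p => (p.2 : G)) this
            exact h3.symm
          · intro y hy z hz
            simp only [List.head?_cons, Option.mem_def, Option.some.injEq] at hz
            subst hz
            exact h1.2.2 y hy _ (by simp)
        · have e3 : P φ 1 ((a.1, a.2 * b.2⁻¹) :: ilist g' (b :: s')) =
              of 1 * t ^ (a.1 : ℤ) * P φ (a.2 * b.2⁻¹) (ilist g' (b :: s')) := P_cons φ _ _ _
          have e4 : P φ (a.2 * b.2⁻¹) (ilist g' (b :: s')) =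
              of a.2 * P φ (b.2⁻¹) (ilist g' (b :: s')) := P_mul_left φ _ _ _
          rw [P_inv, List.reverse_cons, P_append, P_append, e3, e4]
          show P φ g s.reverse * P φ 1 [a] * P φ (b.2⁻¹) (ilist g' (b :: s')) = _
          simp [P, mul_assoc]
        · simp only [cp, hab, if_false, List.length_append, List.length_reverse, List.length_cons,
            ilist_length]
          omega

/-- The length of an element. -/
noncomputable def len (x : HNNExtension G A B φ) : ℕ := (NormalWord.equiv φ d x).toList.length

theorem prod_equiv (x : HNNExtension G A B φ) :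
    P φ (NormalWord.equiv φ d x).head (NormalWord.equiv φ d x).toList = x :=
  (NormalWord.equiv φ d).symm_apply_apply x

theorem len_P {g : G} {l : List (ℤˣ × G)} (h : l.IsChain (C A B)) :
    len φ d (P φ g l) = l.length :=
  len_unique φ (NormalWord.equiv φ d (P φ g l)).chain h (prod_equiv φ d _)

open Classical in
/-- The Gromov product of `x⁻¹` and `y⁻¹`. -/
noncomputable def gp (x y : HNNExtension G A B φ) : ℕ :=
  cp (NormalWord.equiv φ d x).toList.reverse (NormalWord.equiv φ d y).toList.reverse

theorem len_div (x y : HNNExtension G A B φ) :
    len φ d (x * y⁻¹) + 2 * gp φ d x y = len φ d x + len φ d y := by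
  classical
  obtain ⟨k, l, hl, e, hlen⟩ := quot_word φ d (NormalWord.equiv φ d x).head
    (NormalWord.equiv φ d y).head (NormalWord.equiv φ d x).toList.reverse
    (NormalWord.equiv φ d y).toList.reverse
    (by rw [List.reverse_reverse]; exact (NormalWord.equiv φ d x).chain)
    (by rw [List.reverse_reverse]; exact (NormalWord.equiv φ d y).chain)
    (fun u z hz => (NormalWord.equiv φ d x).mem_set u z (by simpa using hz))
    (fun u z hz => (NormalWord.equiv φ d y).mem_set u z (by simpa using hz))
  rw [List.reverse_reverse, List.reverse_reverse, prod_equiv, prod_equiv] at e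
  rw [e, len_P φ d hl]
  simp only [List.length_reverse] at hlen
  unfold gp len
  convert hlen

theorem gp_comm (x y : HNNExtension G A B φ) : gp φ d x y = gp φ d y x := by
  classical
  unfold gp; exact cp_comm _ _

theorem gp_ultra (x y z : HNNExtension G A B φ) :
    min (gp φ d x y) (gp φ d y z) ≤ gp φ d x z := by
  classical
  unfold gp; exact cp_ultra _ _ _

theorem len_of (g : G) : len φ d (of g) = 0 := by
  have h : (of g : HNNExtension G A B φ) = P φ g [] := by simp [P]
  rw [h, len_P φ d (by simp)]
  rfl

theorem len_one : len φ d (1 : HNNExtension G A B φ) = 0 := by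
  have := len_of φ d (1 : G)
  rwa [map_one] at this

theorem len_of_mul (g : G) (x : HNNExtension G A B φ) : len φ d (of g * x) = len φ d x := by
  conv_lhs => rw [← prod_equiv φ d x]
  rw [← P_mul_left, len_P φ d (NormalWord.equiv φ d x).chain]
  rfl

theorem gp_one_left (x : HNNExtension G A B φ) : gp φ d 1 x = 0 := by
  classical
  have h : (NormalWord.equiv φ d (1 : HNNExtension G A B φ)).toList = [] := by
    have := len_one φ d
    unfold len at this
    exact List.length_eq_zero_iff.mp this
  unfold gp
  rw [h]
  exact cp_nil_left _

theorem len_inv (x : HNNExtension G A B φ) : len φ d x⁻¹ = len φ d x := by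
  have h := len_div φ d 1 x
  rw [gp_one_left, len_one, one_mul] at h
  omega

theorem len_mul_of (g : G) (x : HNNExtension G A B φ) : len φ d (x * of g) = len φ d x := by
  rw [← len_inv, mul_inv_rev, ← map_inv, len_of_mul, len_inv]

end Pool.Agent.TH86.BS
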