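import Pool.Agent.H472R3.Hull
import Pool.Agent.TH86.BS.Len

set_option autoImplicit false

/-!
# The tree of an HNN extension
-/

namespace Pool.Agent.TH86.BS

open Pool.Agent.H472R3.Hull HNNExtension HNNExtension.NormalWord

section action

variable {K : Type} [Group K] (H : Hyp K) (hinv : ∀ g x y : K, H.d (g * x) (g * y) = H.d x y)

include hinv in
theorem pt_mul (g a b : K) (t : ℝ) :
    (fun z => H.pt a b t (g⁻¹ * z)) = H.pt (g * a) (g * b) t := by
  have h := H.pt_smul (Equiv.mulLeft g) (fun x y => hinv g x y) a b t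
  simpa [Equiv.mulLeft] using h

/-- the action map -/
def act (g : K) (f : H.Pt) : H.Pt :=
  ⟨fun z => f.1 (g⁻¹ * z), by
    obtain ⟨f, a, b, t, h0, h1, rfl⟩ := f
    exact ⟨g * a, g * b, t, h0, by rw [hinv]; exact h1, pt_mul H hinv g a b t⟩⟩

theorem act_one (f : H.Pt) : act H hinv 1 f = f := by
  apply Subtype.ext
  funext z
  simp [act]

theorem act_mul (g h : K) (f : H.Pt) : act H hinv (g * h) f = act H hinv g (act H hinv h f) := by
  apply Subtype.ext
  funext z
  simp [act, mul_assoc]

theorem act_dist (g : K) (f f' : H.Pt) : dist (act H hinv g f) (act H hinv g f') = dist f f' := by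
  rw [H.dist_def, H.dist_def]
  apply le_antisymm
  · exact (Equiv.mulLeft g⁻¹).iSup_congr (g := fun z => |f.1 z - f'.1 z|) (fun z => rfl) |>.symm ▸ le_rfl
  · exact (Equiv.mulLeft g⁻¹).iSup_congr (g := fun z => |f.1 z - f'.1 z|) (fun z => rfl) |>.symm ▸ le_rfl

/-- the isometry given by `g` -/
noncomputable def isoOf (g : K) : H.Pt ≃ᵢ H.Pt where
  toFun := act H hinv g
  invFun := act H hinv g⁻¹
  left_inv f := by rw [← act_mul, inv_mul_cancel, act_one]
  right_inv f := by rw [← act_mul, mul_inv_cancel, act_one]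
  isometry_toFun := Isometry.of_dist_eq (act_dist H hinv g)

/-- the action homomorphism -/
noncomputable def actHom : K →* (H.Pt ≃ᵢ H.Pt) where
  toFun := isoOf H hinv
  map_one' := by
    ext f
    exact act_one H hinv f
  map_mul' g h := by
    ext f
    exact act_mul H hinv g h f

theorem actHom_v (g x : K) : actHom H hinv g (H.v x) = H.v (g * x) := by
  apply Subtype.ext
  funext z
  show (H.v x).1 (g⁻¹ * z) = (H.v (g * x)).1 z
  rw [H.v_apply, H.v_apply, ← hinv g x (g⁻¹ * z), mul_inv_cancel_left]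

end action

section hnn

variable {G : Type} [Group G] {A B : Subgroup G} (φ : A ≃* B) (d : TransversalPair G A B)

/-- The 0-hyperbolic distance on an HNN extension. -/
noncomputable def hyp : Hyp (HNNExtension G A B φ) where
  d x y := (len φ d (x⁻¹ * y) : ℝ)
  self x := by simp [len_one]
  symm x y := by
    have h : x⁻¹ * y = (y⁻¹ * x)⁻¹ := by group
    rw [h, len_inv]
  um a x y z := by
    have key : ∀ x y : HNNExtension G A B φ,
        ((len φ d (a⁻¹ * x) : ℝ) + len φ d (a⁻¹ * y) - len φ d (x⁻¹ * y)) / 2 =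
          (gp φ d (x⁻¹ * a) (y⁻¹ * a) : ℝ) := by
      intro x y
      have h := len_div φ d (x⁻¹ * a) (y⁻¹ * a)
      have e1 : x⁻¹ * a * (y⁻¹ * a)⁻¹ = x⁻¹ * y := by group
      have e2 : len φ d (x⁻¹ * a) = len φ d (a⁻¹ * x) := by
        rw [← len_inv]; congr 1; group
      have e3 : len φ d (y⁻¹ * a) = len φ d (a⁻¹ * y) := by
        rw [← len_inv]; congr 1; group
      rw [e1, e2, e3] at h
      have h' : (len φ d (x⁻¹ * y) : ℝ) + 2 * (gp φ d (x⁻¹ * a) (y⁻¹ * a) : ℝ) =
        (len φ d (a⁻¹ * x) : ℝ) + (len φ d (a⁻¹ * y) : ℝ) := by exact_mod_cast h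
      linarith
    rw [key x y, key y z, key x z]
    exact_mod_cast gp_ultra φ d _ _ _

theorem hyp_d (x y : HNNExtension G A B φ) : (hyp φ d).d x y = (len φ d (x⁻¹ * y) : ℝ) := rfl

theorem hyp_inv (g x y : HNNExtension G A B φ) :
    (hyp φ d).d (g * x) (g * y) = (hyp φ d).d x y := by
  rw [hyp_d, hyp_d, show (g * x)⁻¹ * (g * y) = x⁻¹ * y by group]

/-- powers of the stable letter -/
theorem P_replicate (u : ℤˣ) (k : ℕ) :
    P φ 1 (List.replicate k (u, 1)) = (t ^ (u : ℤ)) ^ k := by
  simp [P]

theorem chain_replicate (u : ℤˣ) (k : ℕ) :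
    (List.replicate k ((u, 1) : ℤˣ × G)).IsChain (C A B) := by
  induction k with
  | zero => simp
  | succ k ih =>
    rw [List.replicate_succ, List.isChain_cons]
    refine ⟨?_, ih⟩
    intro y hy _
    have := List.mem_of_mem_head? hy
    rw [List.mem_replicate] at this
    rw [this.2]

/-- The length of `tⁿ a tᵐ` for `a` outside the associated subgroups. -/
theorem len_two (a : G) (hA : a ∉ A) (hB : a ∉ B) (n m : ℤ) :
    (len φ d (t ^ n * of a * t ^ m) : ℤ) = |n| + |m| := by
  have hu : ∀ n : ℤ, ∃ (u : ℤˣ) (p : ℕ), n = (u : ℤ) * p ∧ |n| = p := by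
    intro n
    rcases Int.natAbs_eq n with h | h
    · exact ⟨1, n.natAbs, by simpa using h, by rw [Int.abs_eq_natAbs]⟩
    · exact ⟨-1, n.natAbs, by simpa using h, by rw [Int.abs_eq_natAbs]⟩
  obtain ⟨u, p, hn, hp⟩ := hu n
  obtain ⟨v, q, hm, hq⟩ := hu m
  have ha : ∀ u : ℤˣ, a ∉ toSubgroup A B u := by
    intro u
    rcases Int.units_eq_one_or u with rfl | rfl
    · exact hA
    · exact hB
  have e1 : (t : HNNExtension G A B φ) ^ n = P φ 1 (List.replicate p (u, 1)) := by
    rw [P_replicate, hn, zpow_mul, zpow_natCast]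
  have e2 : (t : HNNExtension G A B φ) ^ m = P φ 1 (List.replicate q (v, 1)) := by
    rw [P_replicate, hm, zpow_mul, zpow_natCast]
  rw [hp, hq]
  cases p with
  | zero =>
    have e3 : (t ^ n * of a * t ^ m : HNNExtension G A B φ) = P φ a (List.replicate q (v, 1)) := by
      rw [e1, e2]
      simp [P]
    rw [e3, len_P φ d (chain_replicate v q)]
    simp
  | succ p =>
    have e3 : (t ^ n * of a * t ^ m : HNNExtension G A B φ) =
        P φ 1 (List.replicate p (u, 1) ++ (u, a) :: List.replicate q (v, 1)) := by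
      rw [e1, e2, List.replicate_succ', P_append]
      simp [P, mul_assoc]
    rw [e3, len_P φ d]
    · simp; ring
    · rw [List.isChain_append]
      refine ⟨chain_replicate u p, ?_, ?_⟩
      · rw [List.isChain_cons]
        exact ⟨fun y _ h => absurd h (ha u), chain_replicate v q⟩
      · intro y hy z hz h
        simp only [List.head?_cons, Option.mem_def, Option.some.injEq] at hz
        subst hz
        have := List.mem_of_mem_getLast? hy
        rw [List.mem_replicate] at this
        rw [this.2]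

end hnn

end Pool.Agent.TH86.BS
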